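import Mathlib
import Pool.Agent.Helper78.AutoDefs
import Pool.Agent.Helper78.AutoProof

open Pool.Agent.Helper78.Auto

/-- The infinite word `x` of the problem (every `word n` is a prefix of it) is not
`k`-automatic for any integer `k ≥ 2`. -/
theorem Pool.Agent.Results.MP_ad6ded_lc.NotAutomatic.result :
    (∀ n, BeginsWith x (word n)) ∧ ∀ k : ℕ, 2 ≤ k → ¬ IsAutomatic k x :=
  ⟨x_begins, fun k hk => not_automatic x x_spec k hk⟩
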